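import Mathlib

set_option autoImplicit false

/-! First derivative test for integrals of functions of modulus one (for project SX of helper82). -/

namespace Pool.Agent.D0H22.SX

open Complex Filter Topology MeasureTheory Set
open scoped ComplexConjugate

theorem fdt {F : ℝ → ℂ} {lam lam' : ℝ → ℝ} {e : ℝ → ℂ} {S Λ E D : ℝ} (hS : 0 ≤ S) (hΛ : 0 < Λ)
    (hFc : Continuous F) (hFn : ∀ y, ‖F y‖ = 1)
    (hFd : ∀ y ∈ Icc 0 S, HasDerivAt F (I * F y * (lam y + e y)) y)
    (hld : ∀ y ∈ Icc 0 S, HasDerivAt lam (lam' y) y)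
    (hl : ∀ y ∈ Icc 0 S, Λ ≤ |lam y|)
    (he : ∀ y ∈ Icc 0 S, ‖e y‖ ≤ E)
    (hl' : ∀ y ∈ Icc 0 S, |lam' y| ≤ D) :
    ‖∫ y in (0:ℝ)..S, F y‖ ≤ 2 / Λ + (E / Λ + D / Λ ^ 2) * S := by
  have hE : 0 ≤ E := (norm_nonneg _).trans (he 0 ⟨le_rfl, hS⟩)
  have hD : 0 ≤ D := (abs_nonneg _).trans (hl' 0 ⟨le_rfl, hS⟩)
  have hne : ∀ y ∈ Icc 0 S, lam y ≠ 0 := by
    intro y hy h0
    have := hl y hy
    rw [h0, abs_zero] at this
    linarith
  set G : ℝ → ℂ := fun y => -I * F y / lam y with hG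
  have hGd : ∀ y ∈ Icc 0 S, HasDerivAt G (F y + F y * e y / lam y + I * F y * lam' y / (lam y) ^ 2) y := by
    intro y hy
    have hpc : (lam y : ℂ) ≠ 0 := by exact_mod_cast hne y hy
    have d1 := (hFd y hy).const_mul (-I)
    have d2 := (hld y hy).ofReal_comp
    have d3 := d1.div d2 hpc
    refine d3.congr_deriv ?_
    field_simp
    linear_combination (-(F y * lam y * (lam y + e y))) * I_sq
  have hGn : ∀ y ∈ Icc 0 S, ‖G y‖ ≤ 1 / Λ := by
    intro y hy
    rw [hG]
    simp only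
    rw [norm_div, norm_mul, norm_neg, norm_I, hFn, one_mul, Complex.norm_real, Real.norm_eq_abs]
    exact one_div_le_one_div_of_le hΛ (hl y hy)
  have key := norm_image_sub_le_of_norm_deriv_le_segment' (a := 0) (b := S)
    (f := fun y => (∫ x in (0:ℝ)..y, F x) - G y)
    (f' := fun y => F y - (F y + F y * e y / lam y + I * F y * lam' y / (lam y) ^ 2))
    (C := E / Λ + D / Λ ^ 2)
    (fun y hy => by
      have d1 : HasDerivAt (fun u => ∫ x in (0:ℝ)..u, F x) (F y) y :=
        intervalIntegral.integral_hasDerivAt_right (hFc.intervalIntegrable _ _)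
          (hFc.stronglyMeasurableAtFilter _ _) hFc.continuousAt
      exact (d1.sub (hGd y hy)).hasDerivWithinAt)
    (fun y hy => by
      have hy' : y ∈ Icc 0 S := ⟨hy.1, hy.2.le⟩
      have e1 : F y - (F y + F y * e y / lam y + I * F y * lam' y / (lam y) ^ 2) =
          -(F y * e y / lam y) - I * F y * lam' y / (lam y) ^ 2 := by ring
      rw [e1]
      refine (norm_sub_le _ _).trans ?_
      rw [norm_neg, norm_div, norm_mul, hFn, one_mul, Complex.norm_real, Real.norm_eq_abs,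
        norm_div, norm_mul, norm_mul, norm_I, hFn, one_mul, one_mul, Complex.norm_real, norm_pow,
        Complex.norm_real, Real.norm_eq_abs, Real.norm_eq_abs]
      have h1 := hl y hy'
      refine add_le_add ?_ ?_
      · calc ‖e y‖ / |lam y| ≤ ‖e y‖ / Λ := div_le_div_of_nonneg_left (norm_nonneg _) hΛ h1
          _ ≤ E / Λ := div_le_div_of_nonneg_right (he y hy') hΛ.le
      · calc |lam' y| / |lam y| ^ 2 ≤ |lam' y| / Λ ^ 2 :=
              div_le_div_of_nonneg_left (abs_nonneg _) (by positivity) (pow_le_pow_left₀ hΛ.le h1 2)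
          _ ≤ D / Λ ^ 2 := div_le_div_of_nonneg_right (hl' y hy') (by positivity))
  have hk := key S (right_mem_Icc.2 hS)
  simp only [intervalIntegral.integral_same, sub_zero] at hk
  have e3 : ∫ x in (0:ℝ)..S, F x = ((∫ x in (0:ℝ)..S, F x) - G S - (0 - G 0)) + G S - G 0 := by ring
  rw [e3]
  have h5 := hGn S (right_mem_Icc.2 hS)
  have h6 := hGn 0 (left_mem_Icc.2 hS)
  calc _ ≤ ‖(∫ x in (0:ℝ)..S, F x) - G S - (0 - G 0)‖ + ‖G S‖ + ‖G 0‖ :=
        (norm_sub_le _ _).trans (add_le_add (norm_add_le _ _) le_rfl)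
    _ ≤ (E / Λ + D / Λ ^ 2) * S + 1 / Λ + 1 / Λ := by linarith
    _ = _ := by ring

theorem prod_hd {ι : Type*} (s : Finset ι) (f : ι → ℝ → ℂ) (c : ι → ℂ) (x : ℝ)
    (h : ∀ i ∈ s, HasDerivAt (f i) (f i x * c i) x) :
    HasDerivAt (fun t => ∏ i ∈ s, f i t) ((∏ i ∈ s, f i x) * ∑ i ∈ s, c i) x := by
  classical
  induction s using Finset.induction_on with
  | empty => simpa using hasDerivAt_const x (1 : ℂ)
  | insert a s ha ih =>
    have h1 := h a (Finset.mem_insert_self _ _)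
    have h2 := ih fun i hi => h i (Finset.mem_insert_of_mem hi)
    have h3 := h1.mul h2
    simp only [Finset.prod_insert ha, Finset.sum_insert ha]
    refine h3.congr_deriv ?_
    ring

end Pool.Agent.D0H22.SX
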