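import Pool.Agent.D0H82.SX.Stm
import Pool.Agent.TH406.GS.CHI
import Pool.Agent.D0H22.SX.IgCore

set_option autoImplicit false

/-! Module IG of project SX (MP_07318d_nt slot 3, helper82): the swap factors have bounded integrals if the two
blocks are separated. -/

namespace Pool.Agent.D0H22.SX

open Complex Filter Topology MeasureTheory Set
open scoped ComplexConjugate
open Pool.Agent.TH612.CF Pool.Agent.TH612.GS Pool.Agent.TH406.GS

noncomputable section

variable {X L : ℝ → ℂ}

theorem absIG (h : Osc X L) {ι κ : Type*} (R : Finset ι) (W : Finset κ) (b : ι → ℝ) (a : κ → ℝ)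
    {T S : ℝ} (k : ℕ) (hRW : R.card = W.card) (hk : R.card ≤ k) (hR : 0 < R.card) (hT : 128 ≤ T)
    (hS : 0 ≤ S) (hST : S ≤ T / 24) (hb : ∀ j ∈ R, T / 8 ≤ b j ∧ b j ≤ 7 / 24 * T)
    (ha : ∀ j ∈ W, T / 2 ≤ a j) :
    ‖∫ t in (0:ℝ)..S, (∏ j ∈ R, X (t + b j)) * ∏ j ∈ W, conj (X (t + a j))‖ ≤
      2 / Real.log (3 / 2) + (160 * k / Real.log (3 / 2) + 10 * k / Real.log (3 / 2) ^ 2) := by
  set Λ : ℝ := Real.log (3 / 2) with hΛ
  have hΛ0 : 0 < Λ := Real.log_pos (by norm_num)
  have hT0 : 0 < T := by linarith
  set e : ℝ → ℂ := fun u => L u - (Real.log (u / (2 * Real.pi)) : ℂ) with he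
  set F : ℝ → ℂ := fun t => (∏ j ∈ R, X (t + b j)) * ∏ j ∈ W, conj (X (t + a j)) with hF
  set lam : ℝ → ℝ := fun t => (∑ j ∈ R, Real.log (t + b j)) - ∑ j ∈ W, Real.log (t + a j) with hlam
  set lam' : ℝ → ℝ := fun t => (∑ j ∈ R, 1 / (t + b j)) - ∑ j ∈ W, 1 / (t + a j) with hlam'
  set ε : ℝ → ℂ := fun t => (∑ j ∈ R, e (t + b j)) - ∑ j ∈ W, conj (e (t + a j)) with hε
  have hXc := h.cont
  have hbpos : ∀ t ∈ Icc 0 S, ∀ j ∈ R, T / 8 ≤ t + b j := fun t ht j hj => by
    have := (hb j hj).1
    linarith [ht.1]
  have hbup : ∀ t ∈ Icc 0 S, ∀ j ∈ R, t + b j ≤ T / 3 := fun t ht j hj => by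
    have := (hb j hj).2
    linarith [ht.2]
  have hapos : ∀ t ∈ Icc 0 S, ∀ j ∈ W, T / 2 ≤ t + a j := fun t ht j hj => by
    have := ha j hj
    linarith [ht.1]
  have hcR : (R.card : ℝ) ≤ k := by exact_mod_cast hk
  have hcW : (W.card : ℝ) ≤ k := by rw [← hRW]; exact hcR
  have hc1 : (1 : ℝ) ≤ R.card := by exact_mod_cast hR
  have main := fdt (F := F) (lam := lam) (lam' := lam') (e := ε) (S := S) (Λ := Λ) (E := 160 * k / T)
    (D := 10 * k / T) hS hΛ0 (by rw [hF]; fun_prop)
    (fun y => by
      rw [hF]
      simp only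
      rw [norm_mul, norm_prod, norm_prod, Finset.prod_congr rfl fun j _ => h.norm _,
        Finset.prod_congr rfl fun j _ => (Complex.norm_conj _).trans (h.norm _)]
      simp)
    (fun y hy => by
      have d1 := prod_hd R (fun j t => X (t + b j)) (fun j => L (y + b j) * I) y (fun j hj => by
        have h1 : 1 ≤ y + b j := by
          have := hbpos y hy j hj
          linarith
        have h2 : HasDerivAt (fun t : ℝ => X (t + b j)) (X (y + b j) * L (y + b j) * I) y :=
          (h.hd (y + b j) h1).comp_add_const y (b j)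
        exact h2.congr_deriv (by ring))
      have d2 := prod_hd W (fun j t => conj (X (t + a j))) (fun j => conj (L (y + a j)) * (-I)) y (fun j hj => by
        have h1 : 1 ≤ y + a j := by
          have := hapos y hy j hj
          linarith
        have h2 : HasDerivAt (fun t : ℝ => X (t + a j)) (X (y + a j) * L (y + a j) * I) y :=
          (h.hd (y + a j) h1).comp_add_const y (a j)
        have h3 := h2.star
        refine h3.congr_deriv ?_
        simp only [Complex.star_def, map_mul, conj_I]
        ring)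
      have d3 := d1.mul d2
      refine d3.congr_deriv ?_
      have e2 : ((lam y : ℝ) : ℂ) + ε y = (∑ j ∈ R, L (y + b j)) - ∑ j ∈ W, conj (L (y + a j)) := by
        have s1 : (∑ j ∈ R, L (y + b j)) = (∑ j ∈ R, e (y + b j)) +
            ((∑ j ∈ R, Real.log (y + b j) : ℝ) : ℂ) - R.card * (Real.log (2 * Real.pi) : ℂ) := by
          push_cast
          rw [← nsmul_eq_mul, ← Finset.sum_const, ← Finset.sum_add_distrib, ← Finset.sum_sub_distrib]
          refine Finset.sum_congr rfl fun j hj => ?_
          have h1 := hbpos y hy j hj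
          rw [he]
          simp only
          rw [Real.log_div (by linarith) (by positivity)]
          push_cast
          ring
        have s2 : (∑ j ∈ W, conj (L (y + a j))) = (∑ j ∈ W, conj (e (y + a j))) +
            ((∑ j ∈ W, Real.log (y + a j) : ℝ) : ℂ) - W.card * (Real.log (2 * Real.pi) : ℂ) := by
          push_cast
          rw [← nsmul_eq_mul, ← Finset.sum_const, ← Finset.sum_add_distrib, ← Finset.sum_sub_distrib]
          refine Finset.sum_congr rfl fun j hj => ?_
          have h1 := hapos y hy j hj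
          rw [he]
          simp only [map_sub, conj_ofReal]
          rw [Real.log_div (by linarith) (by positivity)]
          push_cast
          ring
        rw [s1, s2, hRW, hlam, hε]
        push_cast
        ring
      rw [e2, hF]
      simp only
      rw [← Finset.sum_mul, ← Finset.sum_mul]
      ring)
    (fun y hy => by
      have d1 : HasDerivAt (fun t : ℝ => ∑ j ∈ R, Real.log (t + b j)) (∑ j ∈ R, 1 / (y + b j)) y := by
        refine HasDerivAt.fun_sum fun j hj => ?_
        have h1 := hbpos y hy j hj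
        have h2 : HasDerivAt (fun t : ℝ => t + b j) 1 y := (hasDerivAt_id y).add_const (b j)
        exact h2.log (by linarith)
      have d2 : HasDerivAt (fun t : ℝ => ∑ j ∈ W, Real.log (t + a j)) (∑ j ∈ W, 1 / (y + a j)) y := by
        refine HasDerivAt.fun_sum fun j hj => ?_
        have h1 := hapos y hy j hj
        have h2 : HasDerivAt (fun t : ℝ => t + a j) 1 y := (hasDerivAt_id y).add_const (a j)
        exact h2.log (by linarith)
      exact d1.sub d2)
    (fun y hy => by
      have h1 : ∑ j ∈ R, Real.log (y + b j) ≤ R.card * Real.log (T / 3) := by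
        rw [← nsmul_eq_mul]
        refine Finset.sum_le_card_nsmul _ _ _ fun j hj => ?_
        have := hbpos y hy j hj
        exact Real.log_le_log (by linarith) (hbup y hy j hj)
      have h2 : W.card * Real.log (T / 2) ≤ ∑ j ∈ W, Real.log (y + a j) := by
        rw [← nsmul_eq_mul]
        refine Finset.card_nsmul_le_sum _ _ _ fun j hj => ?_
        exact Real.log_le_log (by linarith) (hapos y hy j hj)
      have h3 : Real.log (T / 2) - Real.log (T / 3) = Λ := by
        rw [← Real.log_div (by positivity) (by positivity), hΛ]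
        congr 1
        field_simp
      have h4 : lam y ≤ -(R.card * Λ) := by
        rw [← h3]
        rw [← hRW] at h2
        show (∑ j ∈ R, Real.log (y + b j)) - ∑ j ∈ W, Real.log (y + a j) ≤ _
        linarith
      have h5 : Λ ≤ R.card * Λ := by nlinarith
      rw [abs_of_nonpos (by linarith)]
      linarith)
    (fun y hy => by
      show ‖(∑ j ∈ R, e (y + b j)) - ∑ j ∈ W, conj (e (y + a j))‖ ≤ _
      have h1 : ‖∑ j ∈ R, e (y + b j)‖ ≤ R.card * (128 / T) := by
        refine (norm_sum_le _ _).trans ?_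
        rw [← nsmul_eq_mul]
        refine Finset.sum_le_card_nsmul _ _ _ fun j hj => ?_
        have h2 := hbpos y hy j hj
        refine (h.near (y + b j) (by linarith)).trans ?_
        rw [div_le_div_iff₀ (by linarith) hT0]
        linarith
      have h2 : ‖∑ j ∈ W, conj (e (y + a j))‖ ≤ W.card * (32 / T) := by
        refine (norm_sum_le _ _).trans ?_
        rw [← nsmul_eq_mul]
        refine Finset.sum_le_card_nsmul _ _ _ fun j hj => ?_
        have h2 := hapos y hy j hj
        rw [Complex.norm_conj]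
        refine (h.near (y + a j) (by linarith)).trans ?_
        rw [div_le_div_iff₀ (by linarith) hT0]
        linarith
      refine (norm_sub_le _ _).trans ((add_le_add h1 h2).trans ?_)
      have h3 : (R.card : ℝ) * (128 / T) ≤ k * (128 / T) := mul_le_mul_of_nonneg_right hcR (by positivity)
      have h4 : (W.card : ℝ) * (32 / T) ≤ k * (32 / T) := mul_le_mul_of_nonneg_right hcW (by positivity)
      refine (add_le_add h3 h4).trans (le_of_eq ?_)
      ring)
    (fun y hy => by
      show |(∑ j ∈ R, 1 / (y + b j)) - ∑ j ∈ W, 1 / (y + a j)| ≤ _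
      have h1 : |∑ j ∈ R, 1 / (y + b j)| ≤ R.card * (8 / T) := by
        refine (Finset.abs_sum_le_sum_abs _ _).trans ?_
        rw [← nsmul_eq_mul]
        refine Finset.sum_le_card_nsmul _ _ _ fun j hj => ?_
        have h2 := hbpos y hy j hj
        have h3 : 0 < y + b j := by linarith
        rw [abs_of_pos (by positivity), div_le_div_iff₀ h3 hT0]
        linarith
      have h2 : |∑ j ∈ W, 1 / (y + a j)| ≤ W.card * (2 / T) := by
        refine (Finset.abs_sum_le_sum_abs _ _).trans ?_
        rw [← nsmul_eq_mul]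
        refine Finset.sum_le_card_nsmul _ _ _ fun j hj => ?_
        have h2 := hapos y hy j hj
        have h3 : 0 < y + a j := by linarith
        rw [abs_of_pos (by positivity), div_le_div_iff₀ h3 hT0]
        linarith
      refine (abs_sub _ _).trans ((add_le_add h1 h2).trans ?_)
      have h3 : (R.card : ℝ) * (8 / T) ≤ k * (8 / T) := mul_le_mul_of_nonneg_right hcR (by positivity)
      have h4 : (W.card : ℝ) * (2 / T) ≤ k * (2 / T) := mul_le_mul_of_nonneg_right hcW (by positivity)
      refine (add_le_add h3 h4).trans (le_of_eq ?_)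
      ring)
  refine main.trans (add_le_add le_rfl ?_)
  have hST1 : S / T ≤ 1 := by
    rw [div_le_one hT0]
    linarith
  have e1 : (160 * (k : ℝ) / T / Λ + 10 * k / T / Λ ^ 2) * S = (160 * k / Λ + 10 * k / Λ ^ 2) * (S / T) := by
    field_simp
  rw [e1]
  exact mul_le_of_le_one_right (by positivity) hST1

theorem chi_pos (u : ℝ) : chi (1 / 2 + I * u) = conj (Pool.Agent.W182.KO.XX (1 / 2 + I * u)) := chi_eq u

theorem chi_neg (u : ℝ) : chi (1 / 2 - I * u) = Pool.Agent.W182.KO.XX (1 / 2 + I * u) := by
  have h1 : chi (1 / 2 + I * u) * chi (1 / 2 - I * u) = 1 := chi_mul (by simp)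
  have h2 : ‖Pool.Agent.W182.KO.XX (1 / 2 + I * u)‖ = 1 := osc.norm u
  have h3 : Pool.Agent.W182.KO.XX (1 / 2 + I * u) * conj (Pool.Agent.W182.KO.XX (1 / 2 + I * u)) = 1 := by
    rw [Complex.mul_conj, Complex.normSq_eq_norm_sq, h2]
    simp
  rw [chi_eq] at h1
  have h4 : conj (Pool.Agent.W182.KO.XX (1 / 2 + I * u)) ≠ 0 := left_ne_zero_of_mul_eq_one h1
  apply mul_left_cancel₀ h4
  rw [h1, mul_comm, h3]

theorem t_IG : Pool.Agent.D0H82.SX.S_IG := by
  intro k
  have hΛ0 : 0 < Real.log (3 / 2) := Real.log_pos (by norm_num)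
  refine ⟨2 / Real.log (3 / 2) + (160 * k / Real.log (3 / 2) + 10 * k / Real.log (3 / 2) ^ 2), 128,
    by positivity, by norm_num, fun T S γ π hT hS hST hπ hl hr => ?_⟩
  have e1 : ∀ t : ℝ, GG t (fun i => (γ i : ℂ)) π =
      (∏ j ∈ SL π, Pool.Agent.W182.KO.XX (1 / 2 + I * ((t + γ (π (Sum.inl j)) : ℝ) : ℂ))) *
      ∏ j ∈ SR π, conj (Pool.Agent.W182.KO.XX (1 / 2 + I * ((t + γ (π (Sum.inr j)) : ℝ) : ℂ))) := by
    intro t
    unfold GG SL SR
    rw [Finset.prod_filter, Finset.prod_filter]
    congr 1
    · refine Finset.prod_congr rfl fun j _ => ?_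
      split_ifs
      · rw [← chi_neg]
        congr 1
        push_cast
        ring
      · rfl
    · refine Finset.prod_congr rfl fun j _ => ?_
      split_ifs
      · rw [← chi_pos]
        congr 1
        push_cast
        ring
      · rfl
  simp_rw [e1]
  have hcard := card_SL_SR π
  refine absIG osc (SL π) (SR π) (fun j => γ (π (Sum.inl j))) (fun j => γ (π (Sum.inr j))) k hcard ?_ ?_ hT hS hST ?_ ?_
  · refine (Finset.card_le_univ _).trans ?_
    simp
  · rw [hcard, Finset.card_pos]
    obtain ⟨j, hj⟩ := hπ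
    exact ⟨j, by simp [SR, hj]⟩
  · intro j hj
    unfold SL at hj
    have h1 := (Finset.mem_filter.1 hj).2
    rcases hπ' : π (Sum.inl j) with i | i
    · rw [hπ'] at h1
      simp at h1
    · exact hr i
  · intro j hj
    unfold SR at hj
    have h1 := (Finset.mem_filter.1 hj).2
    rcases hπ' : π (Sum.inr j) with i | i
    · exact hl i
    · rw [hπ'] at h1
      simp at h1

end

end Pool.Agent.D0H22.SX
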