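import Mathlib

set_option autoImplicit false

/-! Correlation of an integral with a short sum of characters, abstract form (for project SX of helper82). -/

namespace Pool.Agent.D0H22.SX

open Complex Filter Topology MeasureTheory Set
open scoped ComplexConjugate

theorem swap_int {ι : Type*} [Fintype ι] {B : Set (ι → ℝ)} (hB : IsCompact B) {f : (ι → ℝ) → ℝ → ℂ}
    (hf : Continuous (Function.uncurry f)) {a b : ℝ} (hab : a ≤ b) :
    ∫ γ, (∫ t in a..b, f γ t) ∂(volume.restrict B) = ∫ t in a..b, (∫ γ, f γ t ∂(volume.restrict B)) := by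
  simp only [intervalIntegral.integral_of_le hab]
  refine integral_integral_swap ?_
  have h1 : IntegrableOn (Function.uncurry f) (B ×ˢ Icc a b) (volume.prod volume) :=
    hf.continuousOn.integrableOn_compact (hB.prod isCompact_Icc)
  rw [Measure.prod_restrict]
  exact h1.mono_set (prod_mono_right Ioc_subset_Icc_self)

theorem int_cont {ι : Type*} [Fintype ι] {f : (ι → ℝ) → ℝ → ℂ}
    (hf : Continuous (Function.uncurry f)) (a b : ℝ) : Continuous fun γ => ∫ t in a..b, f γ t :=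
  intervalIntegral.continuous_parametric_intervalIntegral_of_continuous (f := f) hf continuous_const

theorem corr {ι α : Type*} [Fintype ι] {B : Set (ι → ℝ)} (hB : IsCompact B) {Z : (ι → ℝ) → ℝ → ℂ}
    (hZ : Continuous (Function.uncurry Z)) (F : Finset α) (c : α → (ι → ℝ) → ℂ)
    (hc : ∀ ν ∈ F, Continuous (c ν)) (w θ : α → ℝ) (g : α → ℂ) {S M ρ c₀ : ℝ} (hS : 0 ≤ S) (hM : 0 ≤ M)
    (hρ : 0 ≤ ρ) (hc₀ : 0 ≤ c₀) (hw : ∀ ν ∈ F, 0 ≤ w ν ∧ S * w ν ≤ 4)
    (hmain : ∀ ν ∈ F, ∀ t ∈ Icc 0 (2 * S), ‖(∫ γ, Z γ t * conj (c ν γ) ∂(volume.restrict B)) -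
      ((M * w ν : ℝ) : ℂ) * Complex.exp (I * (t : ℂ) * (θ ν : ℝ))‖ ≤ ρ * w ν)
    (hg : ∀ ν ∈ F, g ν = (w ν : ℂ) * ((∫ t in (0:ℝ)..S, Complex.exp (I * (t : ℂ) * (θ ν : ℝ))) -
      ∫ t in S..(2 * S), Complex.exp (I * (t : ℂ) * (θ ν : ℝ))))
    (hgl : ∀ ν ∈ F, c₀ ≤ ‖g ν‖ ∧ ‖g ν‖ ≤ 8) :
    F.card * (M * c₀ ^ 2 - 64 * ρ) ≤ ‖∫ γ, ((∫ t in (0:ℝ)..S, Z γ t) - ∫ t in S..(2 * S), Z γ t) *
      conj (∑ ν ∈ F, g ν * c ν γ) ∂(volume.restrict B)‖ := by
  set D : (ι → ℝ) → ℂ := fun γ => (∫ t in (0:ℝ)..S, Z γ t) - ∫ t in S..(2 * S), Z γ t with hD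
  have hDc : Continuous D := (int_cont hZ _ _).sub (int_cont hZ _ _)
  set J : α → ℝ → ℂ := fun ν t => ∫ γ, Z γ t * conj (c ν γ) ∂(volume.restrict B) with hJ
  have hfc : ∀ ν ∈ F, Continuous (Function.uncurry fun (γ : ι → ℝ) (t : ℝ) => Z γ t * conj (c ν γ)) := by
    intro ν hν
    have h1 := hc ν hν
    have h2 : Continuous fun p : (ι → ℝ) × ℝ => Z p.1 p.2 := hZ
    show Continuous fun p : (ι → ℝ) × ℝ => Z p.1 p.2 * conj (c ν p.1)
    exact h2.mul (Complex.continuous_conj.comp (h1.comp continuous_fst))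
  have hJc : ∀ ν ∈ F, Continuous (J ν) := by
    intro ν hν
    have h1 := hc ν hν
    have h2 : Continuous fun p : ℝ × (ι → ℝ) => Z p.2 p.1 := hZ.comp continuous_swap
    have h3 : Continuous (Function.uncurry fun (t : ℝ) (γ : ι → ℝ) => Z γ t * conj (c ν γ)) := by
      show Continuous fun p : ℝ × (ι → ℝ) => Z p.2 p.1 * conj (c ν p.2)
      exact h2.mul (Complex.continuous_conj.comp (h1.comp continuous_snd))
    exact continuous_parametric_integral_of_continuous h3 hB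
  have hI : ∀ ν ∈ F, ∫ γ, D γ * conj (c ν γ) ∂(volume.restrict B) =
      (∫ t in (0:ℝ)..S, J ν t) - ∫ t in S..(2 * S), J ν t := by
    intro ν hν
    rw [hJ]
    simp only
    rw [← swap_int hB (hfc ν hν) hS, ← swap_int hB (hfc ν hν) (by linarith : S ≤ 2 * S),
      ← integral_sub ((int_cont (hfc ν hν) _ _).continuousOn.integrableOn_compact hB)
        ((int_cont (hfc ν hν) _ _).continuousOn.integrableOn_compact hB)]
    refine integral_congr_ae (Eventually.of_forall fun γ => ?_)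
    simp only [hD]
    rw [sub_mul, ← intervalIntegral.integral_mul_const, ← intervalIntegral.integral_mul_const]
  have hE : ∀ ν ∈ F, ‖(∫ γ, D γ * conj (c ν γ) ∂(volume.restrict B)) - (M : ℂ) * g ν‖ ≤ 8 * ρ := by
    intro ν hν
    have hce : Continuous fun t : ℝ => ((M * w ν : ℝ) : ℂ) * Complex.exp (I * (t : ℂ) * (θ ν : ℝ)) := by
      fun_prop
    have e1 : (∫ γ, D γ * conj (c ν γ) ∂(volume.restrict B)) - (M : ℂ) * g ν =
        (∫ t in (0:ℝ)..S, (J ν t - ((M * w ν : ℝ) : ℂ) * Complex.exp (I * (t : ℂ) * (θ ν : ℝ)))) -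
        ∫ t in S..(2 * S), (J ν t - ((M * w ν : ℝ) : ℂ) * Complex.exp (I * (t : ℂ) * (θ ν : ℝ))) := by
      rw [hI ν hν, hg ν hν, intervalIntegral.integral_sub ((hJc ν hν).intervalIntegrable _ _)
        (hce.intervalIntegrable _ _), intervalIntegral.integral_sub ((hJc ν hν).intervalIntegrable _ _)
        (hce.intervalIntegrable _ _), intervalIntegral.integral_const_mul, intervalIntegral.integral_const_mul]
      push_cast
      ring
    rw [e1]
    have h1 := intervalIntegral.norm_integral_le_of_norm_le_const (a := 0) (b := S) (C := ρ * w ν)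
      (f := fun t => J ν t - ((M * w ν : ℝ) : ℂ) * Complex.exp (I * (t : ℂ) * (θ ν : ℝ)))
      (fun t ht => by
        rw [uIoc_of_le hS] at ht
        exact hmain ν hν t ⟨ht.1.le, by linarith [ht.2]⟩)
    have h2 := intervalIntegral.norm_integral_le_of_norm_le_const (a := S) (b := 2 * S) (C := ρ * w ν)
      (f := fun t => J ν t - ((M * w ν : ℝ) : ℂ) * Complex.exp (I * (t : ℂ) * (θ ν : ℝ)))
      (fun t ht => by
        rw [uIoc_of_le (by linarith)] at ht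
        exact hmain ν hν t ⟨by linarith [ht.1], ht.2⟩)
    refine (norm_sub_le _ _).trans ((add_le_add h1 h2).trans ?_)
    rw [sub_zero, abs_of_nonneg hS, show 2 * S - S = S by ring, abs_of_nonneg hS]
    have h3 := (hw ν hν).2
    nlinarith
  have htot : ∫ γ, D γ * conj (∑ ν ∈ F, g ν * c ν γ) ∂(volume.restrict B) =
      ∑ ν ∈ F, conj (g ν) * ∫ γ, D γ * conj (c ν γ) ∂(volume.restrict B) := by
    have e1 : ∀ γ, D γ * conj (∑ ν ∈ F, g ν * c ν γ) = ∑ ν ∈ F, conj (g ν) * (D γ * conj (c ν γ)) := by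
      intro γ
      rw [map_sum, Finset.mul_sum]
      refine Finset.sum_congr rfl fun ν _ => ?_
      rw [map_mul]
      ring
    simp_rw [e1]
    rw [integral_finsetSum]
    · refine Finset.sum_congr rfl fun ν _ => ?_
      rw [integral_const_mul]
    · intro ν hν
      refine Continuous.continuousOn (continuous_const.mul (hDc.mul ?_)) |>.integrableOn_compact hB
      exact Complex.continuous_conj.comp (hc ν hν)
  rw [htot]
  have e2 : ∑ ν ∈ F, conj (g ν) * ∫ γ, D γ * conj (c ν γ) ∂(volume.restrict B) =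
      ((M * ∑ ν ∈ F, ‖g ν‖ ^ 2 : ℝ) : ℂ) +
      ∑ ν ∈ F, conj (g ν) * ((∫ γ, D γ * conj (c ν γ) ∂(volume.restrict B)) - (M : ℂ) * g ν) := by
    push_cast
    rw [Finset.mul_sum, ← Finset.sum_add_distrib]
    refine Finset.sum_congr rfl fun ν _ => ?_
    have h1 : ((‖g ν‖ : ℝ) : ℂ) ^ 2 = conj (g ν) * g ν := by
      rw [mul_comm, Complex.mul_conj, Complex.normSq_eq_norm_sq]
      push_cast
      rfl
    rw [h1]
    ring
  rw [e2]
  have h3 : ‖∑ ν ∈ F, conj (g ν) * ((∫ γ, D γ * conj (c ν γ) ∂(volume.restrict B)) - (M : ℂ) * g ν)‖ ≤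
      F.card * (64 * ρ) := by
    refine (norm_sum_le _ _).trans ?_
    rw [← nsmul_eq_mul]
    refine Finset.sum_le_card_nsmul _ _ _ fun ν hν => ?_
    rw [norm_mul, Complex.norm_conj]
    calc _ ≤ 8 * (8 * ρ) := mul_le_mul (hgl ν hν).2 (hE ν hν) (norm_nonneg _) (by norm_num)
      _ = _ := by ring
  have h4 : F.card * c₀ ^ 2 ≤ ∑ ν ∈ F, ‖g ν‖ ^ 2 := by
    rw [← nsmul_eq_mul]
    exact Finset.card_nsmul_le_sum _ _ _ fun ν hν => pow_le_pow_left₀ hc₀ (hgl ν hν).1 2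
  have h5 : M * (F.card * c₀ ^ 2) ≤ M * ∑ ν ∈ F, ‖g ν‖ ^ 2 := mul_le_mul_of_nonneg_left h4 hM
  have h6 : ‖((M * ∑ ν ∈ F, ‖g ν‖ ^ 2 : ℝ) : ℂ)‖ = M * ∑ ν ∈ F, ‖g ν‖ ^ 2 := by
    rw [Complex.norm_real, Real.norm_of_nonneg]
    exact mul_nonneg hM (Finset.sum_nonneg fun ν _ => by positivity)
  have h7 := norm_sub_le_norm_add ((M * ∑ ν ∈ F, ‖g ν‖ ^ 2 : ℝ) : ℂ)
    (∑ ν ∈ F, conj (g ν) * ((∫ γ, D γ * conj (c ν γ) ∂(volume.restrict B)) - (M : ℂ) * g ν))
  rw [h6] at h7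
  nlinarith

end Pool.Agent.D0H22.SX
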