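import Pool.Agent.D0H82.SX.Stm
import Pool.Agent.D0H22.SX.LowCore

set_option autoImplicit false

/-! Module LOW of project SX (MP_07318d_nt slot 3, helper82): a short sum of characters which correlates with the
difference of two consecutive intervals. -/

namespace Pool.Agent.D0H22.SX

open Complex Filter Topology MeasureTheory Set
open scoped ComplexConjugate
open Pool.Agent.TH612.CF Pool.Agent.TH612.GS
open Pool.Agent.D0H82.SX

noncomputable section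

variable {k : ℕ}

theorem Zg_cont2 : Continuous (Function.uncurry fun (γ : Fin k ⊕ Fin k → ℝ) (t : ℝ) => Zg γ t) := by
  show Continuous fun p : (Fin k ⊕ Fin k → ℝ) × ℝ => Zg p.1 p.2
  have h1 := z_cont
  simp_rw [Zg_fz]
  refine continuous_finsetProd _ fun j _ => ?_
  refine Continuous.mul ?_ ?_
  · exact h1.comp (by fun_prop)
  · exact Complex.continuous_conj.comp (h1.comp (by fun_prop))

theorem ch_cont {ν : Fin k ⊕ Fin k → ℕ} (h : ∀ i, 1 ≤ ν i) : Continuous (ch ν) := by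
  unfold ch
  have h0 : ∀ i, (ν i : ℂ) ≠ 0 := fun i => by
    have := h i
    exact_mod_cast (by omega : ν i ≠ 0)
  refine Continuous.mul ?_ ?_
  · refine continuous_finsetProd _ fun j _ => ?_
    exact Continuous.const_cpow (by fun_prop) (Or.inl (h0 _))
  · refine continuous_finsetProd _ fun j _ => ?_
    exact Continuous.const_cpow (by fun_prop) (Or.inl (h0 _))

theorem mB_eq (k : ℕ) (T : ℝ) : mB k T =
    (volume : Measure (Fin k ⊕ Fin k → ℝ)).restrict (univ.pi fun i => Icc (ul k i * T) ((ul k i + dl k) * T)) := by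
  unfold mB
  rw [volume_pi, Measure.restrict_pi_pi]

theorem box_compact (k : ℕ) (T : ℝ) :
    IsCompact (univ.pi fun i : Fin k ⊕ Fin k => Icc (ul k i * T) ((ul k i + dl k) * T)) :=
  isCompact_univ_pi fun _ => isCompact_Icc

theorem small_rpow {δ : ℝ} (hδ : 0 < δ) : ∃ T₁ : ℝ, ∀ T : ℝ, T₁ ≤ T → T ^ (-(1 / 16) : ℝ) ≤ δ := by
  have h1 := tendsto_rpow_neg_atTop (y := 1 / 16) (by norm_num)
  have h2 := h1.eventually_le_const hδ
  obtain ⟨T₁, h3⟩ := Filter.eventually_atTop.1 h2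
  exact ⟨T₁, h3⟩

theorem wt_nonneg (ν : Fin k ⊕ Fin k → ℕ) : 0 ≤ wt ν := by
  unfold wt
  exact Real.rpow_nonneg (Finset.prod_nonneg fun i _ => Nat.cast_nonneg _) _

theorem dl_pos (k : ℕ) : 0 < dl k := by
  unfold dl
  positivity

theorem t_LOW : S_COEF → S_FAM → S_GV → S_LOW := by
  intro hcoef hfam hgv k hk
  obtain ⟨C, T₁, hC, hT₁, hco⟩ := hcoef k
  obtain ⟨S₁, hS₁, hfa⟩ := hfam k hk
  obtain ⟨c₀, S₂, hc₀, hS₂, hgl⟩ := hgv
  have hd := dl_pos k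
  set m : ℝ := dl k ^ (2 * k) * c₀ ^ 2 with hm
  have hm0 : 0 < m := by positivity
  obtain ⟨T₂, hT₂⟩ := small_rpow (δ := m / (128 * C)) (by positivity)
  refine ⟨m / 64, max S₁ S₂, max (max T₁ T₂) 625, by positivity, hS₁.trans (le_max_left _ _),
    le_trans (by norm_num) (le_max_right _ _), fun T S hT hS hST => ?_⟩
  have hTT₁ : T₁ ≤ T := (le_max_left _ _).trans ((le_max_left _ _).trans hT)
  have hTT₂ : T₂ ≤ T := (le_max_right _ _).trans ((le_max_left _ _).trans hT)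
  have hT625 : (625 : ℝ) ≤ T := (le_max_right _ _).trans hT
  have hSS₁ : S₁ ≤ S := (le_max_left _ _).trans hS
  have hSS₂ : S₂ ≤ S := (le_max_right _ _).trans hS
  have hT0 : 0 < T := by linarith
  have hS1 : 1 ≤ S := hS₁.trans hSS₁
  have hS0 : 0 ≤ S := by linarith
  obtain ⟨F, hF1, hF2, hF3⟩ := hfa S hSS₁
  have hsq : Real.sqrt S ^ 2 = S := Real.sq_sqrt hS0
  have hX : ((⌊5 * Real.sqrt S⌋₊ : ℕ) : ℝ) ≤ 5 * Real.sqrt S := Nat.floor_le (by positivity)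
  have hsub : F ⊆ tup k ⌊5 * Real.sqrt S⌋₊ := by
    intro ν hν
    unfold tup
    rw [Fintype.mem_piFinset]
    intro i
    obtain ⟨h1, h2⟩ := (hF3 ν hν).1 i
    exact Finset.mem_Icc.2 ⟨h1, Nat.le_floor h2⟩
  have h34 : 5 * Real.sqrt S ≤ T ^ (3 / 4 : ℝ) := by
    have h1 : Real.sqrt S ≤ Real.sqrt T := Real.sqrt_le_sqrt (by linarith)
    have h2 : (5 : ℝ) ≤ T ^ (1 / 4 : ℝ) := by
      have h3 : ((625 : ℝ)) ^ (1 / 4 : ℝ) ≤ T ^ (1 / 4 : ℝ) :=
        Real.rpow_le_rpow (by norm_num) hT625 (by norm_num)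
      have h4 : ((625 : ℝ)) ^ (1 / 4 : ℝ) = 5 := by
        rw [show (625 : ℝ) = 5 ^ (4 : ℝ) by norm_num, ← Real.rpow_mul (by norm_num)]
        norm_num
      rw [h4] at h3
      exact h3
    have h3 : T ^ (3 / 4 : ℝ) = T ^ (1 / 4 : ℝ) * Real.sqrt T := by
      rw [Real.sqrt_eq_rpow, ← Real.rpow_add hT0]
      norm_num
    rw [h3]
    have h4 := Real.sqrt_nonneg S
    exact mul_le_mul h2 h1 h4 (by linarith)
  classical
  set b : (Fin k ⊕ Fin k → ℕ) → ℂ := fun ν => if ν ∈ F then gv S ν else 0 with hb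
  have hgF : ∀ ν ∈ F, c₀ ≤ ‖gv S ν‖ ∧ ‖gv S ν‖ ≤ 8 ∧ S * wt ν ≤ 4 := fun ν hν =>
    hgl k S ν hSS₂ (fun i => ((hF3 ν hν).1 i).1) (hF3 ν hν).2.1 (hF3 ν hν).2.2.1 (hF3 ν hν).2.2.2
  refine ⟨⌊5 * Real.sqrt S⌋₊, b, ?_, ?_, ?_⟩
  · have h0 : (0 : ℝ) ≤ ((⌊5 * Real.sqrt S⌋₊ : ℕ) : ℝ) := Nat.cast_nonneg _
    calc ((⌊5 * Real.sqrt S⌋₊ : ℕ) : ℝ) ^ 2 ≤ (5 * Real.sqrt S) ^ 2 := pow_le_pow_left₀ h0 hX 2
      _ = 25 * S := by rw [mul_pow, hsq]; norm_num
      _ ≤ 4 * T := by linarith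
  · have h1 : ∑ ν ∈ tup k ⌊5 * Real.sqrt S⌋₊, ‖b ν‖ ^ 2 = ∑ ν ∈ F, ‖gv S ν‖ ^ 2 := by
      rw [← Finset.sum_subset hsub (f := fun ν => ‖b ν‖ ^ 2)]
      · refine Finset.sum_congr rfl fun ν hν => ?_
        simp only [hb, if_pos hν]
      · intro ν _ hν
        simp only [hb, if_neg hν]
        simp
    rw [h1]
    have h2 : ∑ ν ∈ F, ‖gv S ν‖ ^ 2 ≤ F.card • (64 : ℝ) := by
      refine Finset.sum_le_card_nsmul _ _ _ fun ν hν => ?_
      have h3 := (hgF ν hν).2.1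
      have h4 := norm_nonneg (gv S ν)
      nlinarith
    rw [nsmul_eq_mul] at h2
    linarith
  · have h1 : ∀ γ, ∑ ν ∈ tup k ⌊5 * Real.sqrt S⌋₊, b ν * ch ν γ = ∑ ν ∈ F, gv S ν * ch ν γ := by
      intro γ
      rw [← Finset.sum_subset hsub (f := fun ν => b ν * ch ν γ)]
      · refine Finset.sum_congr rfl fun ν hν => ?_
        simp only [hb, if_pos hν]
      · intro ν _ hν
        simp only [hb, if_neg hν]
        simp
    simp_rw [h1]
    rw [mB_eq]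
    have hsm : T ^ (-(1 / 16) : ℝ) ≤ m / (128 * C) := hT₂ T hTT₂
    have hr0 : 0 ≤ T ^ (-(1 / 16) : ℝ) := Real.rpow_nonneg hT0.le _
    have key := corr (box_compact k T) (Z := fun γ t => Zg γ t) Zg_cont2 F (fun ν => ch ν)
      (fun ν hν => ch_cont fun i => ((hF3 ν hν).1 i).1) (fun ν => wt ν) (fun ν => thv ν) (fun ν => gv S ν)
      (S := S) (M := (dl k * T) ^ (2 * k)) (ρ := C * T ^ (-(1 / 16) : ℝ) * T ^ (2 * k)) (c₀ := c₀)
      hS0 (by positivity) (by positivity) hc₀.le (fun ν hν => ⟨wt_nonneg ν, (hgF ν hν).2.2⟩)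
      (fun ν hν t ht => by
        have h2 := hco T t ν hTT₁ ht.1 (by linarith [ht.2]) (fun i =>
          ⟨((hF3 ν hν).1 i).1, ((hF3 ν hν).1 i).2.trans h34⟩)
        rw [mB_eq] at h2
        exact h2)
      (fun ν hν => rfl)
      (fun ν hν => ⟨(hgF ν hν).1, (hgF ν hν).2.1⟩)
    refine le_trans ?_ key
    have h5 : (dl k * T) ^ (2 * k) * c₀ ^ 2 - 64 * (C * T ^ (-(1 / 16) : ℝ) * T ^ (2 * k)) =
        T ^ (2 * k) * (m - 64 * C * T ^ (-(1 / 16) : ℝ)) := by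
      rw [mul_pow, hm]
      ring
    rw [h5]
    have h6 : m / 2 ≤ m - 64 * C * T ^ (-(1 / 16) : ℝ) := by
      have h7 : 64 * C * T ^ (-(1 / 16) : ℝ) ≤ 64 * C * (m / (128 * C)) :=
        mul_le_mul_of_nonneg_left hsm (by positivity)
      have h8 : 64 * C * (m / (128 * C)) = m / 2 := by
        field_simp
        norm_num
      linarith
    have hTk : 0 < T ^ (2 * k) := by positivity
    calc m / 64 * S * T ^ (2 * k) = (S / 32) * (T ^ (2 * k) * (m / 2)) := by ring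
      _ ≤ F.card * (T ^ (2 * k) * (m / 2)) := mul_le_mul_of_nonneg_right hF1 (by positivity)
      _ ≤ F.card * (T ^ (2 * k) * (m - 64 * C * T ^ (-(1 / 16) : ℝ))) :=
          mul_le_mul_of_nonneg_left (mul_le_mul_of_nonneg_left h6 hTk.le) (Nat.cast_nonneg _)

end

end Pool.Agent.D0H22.SX
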